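import Pool.Agent.H93.CT.Stmts
import Pool.Agent.H31.MA.WX

/-!
Module TRX: the generic tree.
-/

set_option linter.unusedVariables false
set_option synthInstance.maxSize 100000

namespace SW

section
variable {M : Type} [SetStr M] [ZF M] {F : FPoset M} {G : M → Prop}

theorem trx_pair (hG : Gen F G) [ZF (Ext F G)] {v : M} (hv : ∀ z, E z v → ∃ a b, z = opair a b)
    {x y : Ext F G} : E (opair x y) (emb F G v) ↔
      ∃ a b, E (opair a b) v ∧ x = emb F G a ∧ y = emb F G b := by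
  have ef := embF hG
  have tf := traF hG
  constructor
  · intro h
    obtain ⟨z, hz, e⟩ := ef.trans _ _ h
    obtain ⟨a, b, rfl⟩ := hv z hz
    rw [tf.opair, opair_inj] at e
    exact ⟨a, b, hz, e.1, e.2⟩
  · rintro ⟨a, b, h, rfl, rfl⟩
    rw [← tf.opair, ef.mem]
    exact h

theorem trx_pair' (hG : Gen F G) [ZF (Ext F G)] {v : M} (hv : ∀ z, E z v → ∃ a b, z = opair a b)
    {z : Ext F G} (hz : E z (emb F G v)) :
    ∃ a b, E (opair a b) v ∧ z = opair (emb F G a) (emb F G b) := by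
  have ef := embF hG
  have tf := traF hG
  obtain ⟨z0, hz0, rfl⟩ := ef.trans _ _ hz
  obtain ⟨a, b, rfl⟩ := hv z0 hz0
  exact ⟨a, b, hz0, tf.opair a b⟩

theorem trx_dmn (hG : Gen F G) [ZF (Ext F G)] {v : M}
    (hv : ∀ z, E z v → ∃ a b, z = opair a b) : dmn (emb F G v) = emb F G (dmn v) := by
  have ef := embF hG
  refine ext fun x => ?_
  rw [mem_dmn]
  constructor
  · rintro ⟨y, h⟩
    obtain ⟨a, b, h1, rfl, rfl⟩ := (trx_pair hG hv).1 h
    rw [ef.mem, mem_dmn]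
    exact ⟨b, h1⟩
  · intro h
    obtain ⟨a, ha, rfl⟩ := ef.trans _ _ h
    obtain ⟨b, hb⟩ := mem_dmn.1 ha
    exact ⟨emb F G b, (trx_pair hG hv).2 ⟨a, b, hb, rfl, rfl⟩⟩

theorem trx_res (hG : Gen F G) [ZF (Ext F G)] {v a : M}
    (hv : ∀ z, E z v → ∃ a b, z = opair a b) :
    res (emb F G v) (emb F G a) = emb F G (res v a) := by
  have ef := embF hG
  have tf := traF hG
  refine ext fun z => ?_
  constructor
  · intro hz
    have h1 := (mem_res.1 hz).1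
    obtain ⟨x, y, hxy, rfl⟩ := trx_pair' hG hv h1
    have h2 := (opair_mem_res.1 hz).2
    rw [ef.mem] at h2
    rw [← tf.opair, ef.mem]
    exact opair_mem_res.2 ⟨hxy, h2⟩
  · intro hz
    obtain ⟨z0, hz0, rfl⟩ := ef.trans _ _ hz
    obtain ⟨h1, x, y, hx, rfl⟩ := mem_res.1 hz0
    rw [tf.opair, opair_mem_res, ← tf.opair, ef.mem, ef.mem]
    exact ⟨h1, hx⟩

theorem trx_nd {a v : M} (h : Nd a v) : ∀ z, E z v → ∃ a b, z = opair a b := fun z hz => by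
  obtain ⟨x, n, _, _, h⟩ := h.1 z hz
  exact ⟨x, n, h⟩

theorem trx_fj (hG : Gen F G) [ZF (Ext F G)] {a v : M} (h : Nd a v) :
    Fj (emb F G a) (emb F G v) := by
  have ef := embF hG
  have tf := traF hG
  have hv := trx_nd h
  obtain ⟨h1, h2, h3, h4, _⟩ := h
  refine ⟨fun z hz => ?_, fun x hx => ?_, fun x n n' h h' => ?_, fun x x' n h h' => ?_⟩
  · obtain ⟨x, n, hxn, rfl⟩ := trx_pair' hG hv hz
    obtain ⟨x', n', hx, hn, e⟩ := h1 _ hxn
    rw [opair_inj] at e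
    obtain ⟨rfl, rfl⟩ := e
    exact ⟨_, _, (ef.mem _ _).2 hx, by rw [← tf.om, ef.mem]; exact hn, rfl⟩
  · obtain ⟨x0, hx0, rfl⟩ := ef.trans _ _ hx
    obtain ⟨n, hn⟩ := h2 x0 hx0
    exact ⟨emb F G n, (trx_pair hG hv).2 ⟨_, _, hn, rfl, rfl⟩⟩
  · obtain ⟨x1, n1, k1, rfl, rfl⟩ := (trx_pair hG hv).1 h
    obtain ⟨x2, n2, k2, e, rfl⟩ := (trx_pair hG hv).1 h'
    rw [ef.inj] at e
    subst e
    rw [h3 _ _ _ k1 k2]
  · obtain ⟨x1, n1, k1, rfl, rfl⟩ := (trx_pair hG hv).1 h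
    obtain ⟨x2, n2, k2, rfl, e⟩ := (trx_pair hG hv).1 h'
    rw [ef.inj] at e
    subst e
    rw [h4 _ _ _ k1 k2]

theorem trx_av (hG : Gen F G) [ZF (Ext F G)] {f v : M}
    (hv : ∀ z, E z v → ∃ a b, z = opair a b) :
    Av (emb F G f) (emb F G v) ↔ Av f v := by
  have ef := embF hG
  have tf := traF hG
  constructor
  · intro h n x hn hx
    exact h (emb F G n) (emb F G x) ((ef.mem _ _).2 hn)
      (by rw [← tf.opair, ef.mem]; exact hx)
  · intro h n x hn hx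
    obtain ⟨x0, n0, k, rfl, rfl⟩ := (trx_pair hG hv).1 hx
    exact h n0 x0 ((ef.mem _ _).1 hn) k

end

theorem ct_trx (hexh : EXHStmt) (hfnx : FNXStmt) (hcf : CFXStmt) (hcba : CBAStmt)
    (hwpx : WPXStmt) (hscp : SCPStmt) (hndf : NDFStmt) : TRXStmt := by
  intro M _ _ _ w Z I G hB hI hG _
  have ef := embF hG
  have tf := traF hG
  have cf := hcf M w Z I hB
  have hR : Cl2 (fun p v : M => ∃ b : M, Lv p b v) := inferInstance
  have hpq : ∀ p, G p → ∃ a, Cnd w Z I a p := fun p hp => cf.mem.1 (hG.sub p hp)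
  have hT : ∀ x, E x (mk (PG w Z I) G (TT w Z I)) ↔ ∃ p b v, G p ∧ Lv p b v ∧
      x = emb (PG w Z I) G v := by
    intro x
    unfold TT
    rw [mem_mk_Nmx hG hR]
    constructor
    · rintro ⟨p, v, hp, hv, ⟨b, hb⟩, rfl⟩
      exact ⟨p, b, v, hp, hb, rfl⟩
    · rintro ⟨p, b, v, hp, hb, rfl⟩
      obtain ⟨a, ha⟩ := hpq p hp
      exact ⟨p, v, hp, (cf.lvh ha hb).2.2, ⟨b, hb⟩, rfl⟩
  have hTv : ∀ {p b v : M}, G p → Lv p b v → E (emb (PG w Z I) G v)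
      (mk (PG w Z I) G (TT w Z I)) := fun hp hb => (hT _).2 ⟨_, _, _, hp, hb, rfl⟩
  -- large conditions in `G`
  have hbig : ∀ p0 c, G p0 → E c w → ∃ q a, G q ∧ Sub p0 q ∧ Cnd w Z I a q ∧ E c a := by
    intro p0 c hp0 hc
    obtain ⟨q, hq, hqp, a, ha, hca⟩ := (genF hG).meetB
      (fun q : M => ∃ a : M, Cnd w Z I a q ∧ E c a) inferInstance p0 hp0 (fun p hp hpp => by
        obtain ⟨q, a, h1, h2, h3⟩ := hexh M w Z I p c hB hI hp hc
        exact ⟨q, cf.mem.2 ⟨a, h1⟩, h2, a, h1, h3⟩)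
    exact ⟨q, a, hq, hqp, ha, hca⟩
  have hdm : ∀ {b v : M}, Nd b v → dmn (emb (PG w Z I) G v) = emb (PG w Z I) G b := by
    intro b v h
    rw [trx_dmn hG (trx_nd h), (hndf M).dm h]
  have hWX := hwpx M (PG w Z I) G w (hscp M w Z I hB hI) hG hB.w1
  refine ⟨hT, ?_, ?_, ?_, ?_, ?_⟩
  · -- members are injective functions
    intro v hv
    obtain ⟨p, b, v0, hp, hb, rfl⟩ := (hT v).1 hv
    obtain ⟨a, ha⟩ := hpq p hp
    obtain ⟨h1, h2, _⟩ := cf.lvh ha hb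
    exact ⟨emb (PG w Z I) G b, (ef.mem _ _).2 (hB.w1.1.1 a (cf.ht ha).1 b h1), trx_fj hG h2⟩
  · -- the empty node
    have hew : E (emp : M) w := by
      refine emp_mem_ord hB.w1.1 fun e => hB.w1.2.1 ?_
      rw [e]
      exact (hcba M).fin finF.emp
    obtain ⟨q, a, hq, _, ha, hca⟩ := hbig _ emp hG.one hew
    obtain ⟨t, g, ht, _⟩ := cf.lev ha hca
    have h1 := ha.2.1.2.1 _ ht
    have h2 := hTv hq h1
    rwa [tf.emp] at h2
  · -- restrictions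
    intro v a hv ha
    obtain ⟨p, b, v0, hp, hb, rfl⟩ := (hT v).1 hv
    obtain ⟨c, hc⟩ := hpq p hp
    obtain ⟨h1, h2, _⟩ := cf.lvh hc hb
    rw [hdm h2] at ha
    obtain ⟨a0, ha0, rfl⟩ := ef.trans _ _ ha
    rw [trx_res hG (trx_nd h2)]
    exact hTv hp (hc.2.1.2.2.1 b v0 a0 hb ha0)
  · -- levels are countable
    intro a ha
    obtain ⟨a0, ha0, rfl⟩ := ef.trans _ _ ha
    obtain ⟨p, c, hp, _, hc, hac⟩ := hbig _ a0 hG.one ha0
    obtain ⟨t, g, ht, hct, _, hmt, _⟩ := cf.lev hc hac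
    refine (hcba _).sub (wx_cb hG hct) fun v hv => ?_
    obtain ⟨hv1, hv2⟩ := (mem_sep' inferInstance).1 hv
    obtain ⟨q, b, v0, hq, hb, rfl⟩ := (hT v).1 hv1
    obtain ⟨d, hd⟩ := hpq q hq
    obtain ⟨h1, h2, _⟩ := cf.lvh hd hb
    rw [hdm h2, ef.inj] at hv2
    subst hv2
    obtain ⟨r, hr, hrp, hrq⟩ := hG.dir p q hp hq
    rw [ef.mem, hmt]
    refine cf.oldL hc (hG.sub r hr) hrp hac ?_
    obtain ⟨t', g', h3, h4⟩ := hb
    exact ⟨t', g', hrq _ h3, h4⟩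
  · -- extensions
    intro v c f hv hc hvc hf hfo hav
    obtain ⟨p, b, v0, hp, hb, rfl⟩ := (hT v).1 hv
    obtain ⟨a, ha⟩ := hpq p hp
    obtain ⟨h1, h2, _⟩ := cf.lvh ha hb
    obtain ⟨c0, hc0, rfl⟩ := ef.trans _ _ hc
    rw [hdm h2, ef.mem] at hvc
    rw [← tf.om] at hfo
    obtain ⟨f0, hf0, hf0o, rfl⟩ := hfnx M (PG w Z I) G hG om f hf hfo
    rw [trx_av hG (trx_nd h2)] at hav
    obtain ⟨q, d, hq, hpq', hd, hcd⟩ := hbig p c0 hp hc0
    obtain ⟨t, g, ht, _⟩ := cf.lev hd hcd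
    have hb' : Lv q b v0 := by
      obtain ⟨t', g', h3, h4⟩ := hb
      exact ⟨t', g', hpq' _ h3, h4⟩
    obtain ⟨v', h3, h4, h5⟩ := hd.2.1.2.2.2 b v0 c0 _ f0 hb' hvc ht hf0 hf0o hav
    have h6 := (cf.lvh hd h3).2.1
    exact ⟨emb (PG w Z I) G v', hTv hq h3, (tf.sub _ _).2 h4,
      (trx_av hG (trx_nd h6)).2 h5, hdm h6⟩

end SW
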