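import Pool.Agent.H31.CT.NCN

/-!
Module CCZ: antichains are images of `Z`.
-/

set_option linter.unusedVariables false
set_option synthInstance.maxSize 100000

namespace SW

section
variable {M : Type} [SetStr M] [ZF M]

/-- the first component of a pair -/
noncomputable def ccz_fst (z : M) : M := the (fun a => ∃ b : M, z = opair a b)

/-- the second component of a pair -/
noncomputable def ccz_snd (z : M) : M := the (fun b => ∃ a : M, z = opair a b)

instance ccz_fst_i {n : ℕ} {t : (Fin n → M) → M} [ht : DfT t] : DfT (fun v => ccz_fst (t v)) :=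
  DfT.comp1 (f := fun z => ccz_fst z) (by unfold ccz_fst; infer_instance) ht

instance ccz_snd_i {n : ℕ} {t : (Fin n → M) → M} [ht : DfT t] : DfT (fun v => ccz_snd (t v)) :=
  DfT.comp1 (f := fun z => ccz_snd z) (by unfold ccz_snd; infer_instance) ht

theorem ccz_fst_op (a b : M) : ccz_fst (opair a b) = a :=
  the_eq ⟨b, rfl⟩ fun z ⟨b', h⟩ => (opair_inj.1 h).1.symm

theorem ccz_snd_op (a b : M) : ccz_snd (opair a b) = b :=
  the_eq ⟨a, rfl⟩ fun z ⟨a', h⟩ => (opair_inj.1 h).2.symm

/-! ### the union lemma -/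

/-- `p` and `q` have the same column `emp` and agree on common columns -/
def CczAgr (p q : M) : Prop := ∀ K b x, (K = emp ∨ (Col p K ∧ Col q K)) →
  (Et p K b x ↔ Et q K b x)

theorem CczAgr_df : Cl2 (fun p q : M => CczAgr p q) := by unfold CczAgr; infer_instance

instance CczAgr_i {n : ℕ} {t s : (Fin n → M) → M} [ht : DfT t] [hs : DfT s] :
    Df (fun v => CczAgr (t v) (s v)) := CczAgr_df.comp2 ht hs

theorem ccz_et {p p' K b x : M} : Et (bun p p') K b x ↔ Et p K b x ∨ Et p' K b x := by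
  unfold Et
  rw [mem_bun]

theorem ccz_klw {p q K : M} (h1 : ∀ b x, Et q K b x ↔ Et p K b x)
    (h2 : ∀ b v, Lv q b v ↔ Lv p b v) (h3 : Sub p q) (h : KLw K p) : KLw K q := by
  have hin : ∀ b v F, InB q K b v F ↔ InB p K b v F := by
    intro b v F
    unfold InB
    exact exists_congr fun x => by rw [h1]
  have hact : ∀ b, Act q K b ↔ Act p K b := by
    intro b
    unfold Act
    exact exists_congr fun v => exists_congr fun F => hin b v F
  obtain ⟨k1, k2, k3, k4, k5, k6, k7, k8⟩ := h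
  refine ⟨?_, ?_, ?_, ?_, ?_, ?_, ?_, ?_⟩
  · intro b x hx
    exact k1 b x ((h1 b x).1 hx)
  · intro x hx
    exact k2 x ((h1 emp x).1 hx)
  · intro b v F hb
    obtain ⟨a1, a2, a3, a4⟩ := k3 b v F ((hin b v F).1 hb)
    exact ⟨(h2 b v).2 a1, a2, a3, a4⟩
  · intro b v F F' hb hb'
    exact k4 b v F F' ((hin b v F).1 hb) ((hin b v F').1 hb')
  · intro c b v F e hc hb ha he
    obtain ⟨v', F', a1, a2⟩ := k5 c b v F e hc ((hin c v F).1 hb) ((hact b).1 ha) he
    exact ⟨v', F', (hin b v' F').2 a1, a2⟩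
  · intro c b v F hc hb ha
    obtain ⟨F', a1⟩ := k6 c b v F hc ((hin b v F).1 hb) ((hact c).1 ha)
    exact ⟨F', (hin c _ F').2 a1⟩
  · intro b v F v' F' u hb hb' hm
    obtain ⟨r, a1, a2⟩ := k7 b v F v' F' u ((hin b v F).1 hb) ((hin b v' F').1 hb') hm
    exact ⟨r, a1.trans h3, a2⟩
  · intro b x hx hb hlim
    refine (hact b).2 (k8 b x ((h1 b x).1 hx) hb fun c hc => ?_)
    obtain ⟨d, a1, a2, a3⟩ := hlim c hc
    exact ⟨d, a1, a2, (hact d).1 a3⟩

theorem ccz_col {p K b x : M} (h : Et p K b x) : Col p K := ⟨b, x, h⟩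

theorem ccz_union (hcb : CbA M) {w Z I p p' : M} (hI : ¬ E emp I) (hp : E p (PQ w Z I))
    (hp' : E p' (PQ w Z I)) (hagr : CczAgr p p') : E (bun p p') (PQ w Z I) := by
  unfold PQ at hp hp' ⊢
  rw [mem_sep, mem_pow] at hp hp' ⊢
  obtain ⟨hs, a, ⟨s1, s2, s3, s4, s5, s6, s7⟩, ht, hk⟩ := hp
  obtain ⟨hs', a', ⟨t1, t2, t3, t4, t5, t6, t7⟩, ht', hk'⟩ := hp'
  have hemp : ∀ b x, Et p emp b x ↔ Et p' emp b x := fun b x => hagr emp b x (Or.inl rfl)
  have ha : a = a' := by
    refine ext fun b => ⟨fun hb => ?_, fun hb => ?_⟩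
    · obtain ⟨x, hx⟩ := s6 b hb
      obtain ⟨K, b', x', _, hb', _, h⟩ := t3 _ ((hemp b x).1 hx)
      rw [opair_inj, opair_inj] at h
      rw [h.2.1]; exact hb'
    · obtain ⟨x, hx⟩ := t6 b hb
      obtain ⟨K, b', x', _, hb', _, h⟩ := s3 _ ((hemp b x).2 hx)
      rw [opair_inj, opair_inj] at h
      rw [h.2.1]; exact hb'
  subst ha
  have hL1 : ∀ b x, Et (bun p p') emp b x ↔ Et p emp b x := by
    intro b x
    rw [ccz_et, ← hemp]
    exact ⟨fun h => h.elim id id, Or.inl⟩
  have hLv : ∀ b v, Lv (bun p p') b v ↔ Lv p b v := by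
    intro b v
    unfold Lv
    exact exists_congr fun t => exists_congr fun g => by rw [hL1]
  have hLv' : ∀ b v, Lv (bun p p') b v ↔ Lv p' b v := by
    intro b v
    unfold Lv
    exact exists_congr fun t => exists_congr fun g => by rw [hL1, hemp]
  have hsub : Sub p (bun p p') := fun z hz => mem_bun.2 (Or.inl hz)
  have hsub' : Sub p' (bun p p') := fun z hz => mem_bun.2 (Or.inr hz)
  refine ⟨fun z hz => (mem_bun.1 hz).elim (hs z) (hs' z), a, ⟨s1, hcb.bun s2 t2,
    fun z hz => (mem_bun.1 hz).elim (s3 z) (t3 z), ?_, ?_, ?_, ?_⟩, ?_, ?_⟩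
  · intro K b x x' h h'
    rw [ccz_et] at h h'
    rcases h with h | h
    · rcases h' with h' | h'
      · exact s4 K b x x' h h'
      · exact s4 K b x x' h ((hagr K b x' (Or.inr ⟨ccz_col h, ccz_col h'⟩)).2 h')
    · rcases h' with h' | h'
      · exact s4 K b x x' ((hagr K b x (Or.inr ⟨ccz_col h', ccz_col h⟩)).2 h) h'
      · exact t4 K b x x' h h'
  · intro K b hc hb
    obtain ⟨b', x', h⟩ := hc
    rw [ccz_et] at h
    rcases h with h | h
    · obtain ⟨x, hx⟩ := s5 K b (ccz_col h) hb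
      exact ⟨x, ccz_et.2 (Or.inl hx)⟩
    · obtain ⟨x, hx⟩ := t5 K b (ccz_col h) hb
      exact ⟨x, ccz_et.2 (Or.inr hx)⟩
  · intro b hb
    obtain ⟨x, hx⟩ := s6 b hb
    exact ⟨x, ccz_et.2 (Or.inl hx)⟩
  · intro b x hx
    exact s7 b x ((hL1 b x).1 hx)
  · obtain ⟨l1, l2, l3, l4⟩ := ht
    refine ⟨fun b v h => l1 b v ((hLv b v).1 h), fun x h => (hLv _ _).2 (l2 x ((hL1 _ _).1 h)),
      fun b v c h hc => (hLv _ _).2 (l3 b v c ((hLv _ _).1 h) hc), ?_⟩
    intro c v b x F h1 h2 h3 h4 h5 h6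
    obtain ⟨v', a1, a2⟩ := l4 c v b x F ((hLv _ _).1 h1) h2 ((hL1 _ _).1 h3) h4 h5 h6
    exact ⟨v', (hLv _ _).2 a1, a2⟩
  · intro K hK
    by_cases hc : Col p' K
    · refine ccz_klw (fun b x => ?_) hLv' hsub' (hk' K hK)
      rw [ccz_et]
      refine ⟨fun h => h.elim (fun h => ?_) id, Or.inr⟩
      exact (hagr K b x (Or.inr ⟨ccz_col h, hc⟩)).1 h
    · refine ccz_klw (fun b x => ?_) hLv hsub (hk K hK)
      rw [ccz_et]
      refine ⟨fun h => h.elim id (fun h => ?_), Or.inl⟩
      exact absurd (ccz_col h) hc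

/-! ### the recursion -/

variable (A g N : M)

/-- the set of entries coded by `c` (a set of pairs (code, rest)), the columns given by the set
function `v` -/
noncomputable def cczR (c v : M) : M := img c (fun t => opair (app v (ccz_fst t)) (ccz_snd t))

/-- the chosen member of `A` for `r` -/
noncomputable def cczPhi (r : M) : M := app g (sep A (fun p => CczAgr p r))

/-- the value at `z = (c, n)` -/
noncomputable def cczH (v z : M) : M := the (fun K => ∃ c n : M, z = opair c n ∧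
  K = app (app N (cczPhi A g (cczR c v))) n)

instance cczR_i {n : ℕ} {t s : (Fin n → M) → M} [ht : DfT t] [hs : DfT s] :
    DfT (fun v => cczR (t v) (s v)) :=
  DfT.comp2 (f := fun c v => cczR c v) (by unfold cczR; infer_instance) ht hs

instance cczPhi_i {n : ℕ} {t : (Fin n → M) → M} [ht : DfT t] :
    DfT (fun v => cczPhi A g (t v)) :=
  DfT.comp1 (f := fun z => cczPhi A g z) (by unfold cczPhi; infer_instance) ht

instance cczH_i {n : ℕ} {t s : (Fin n → M) → M} [ht : DfT t] [hs : DfT s] :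
    DfT (fun v => cczH A g N (t v) (s v)) :=
  DfT.comp2 (f := fun v z => cczH A g N v z) (by unfold cczH; infer_instance) ht hs

/-- the graph of the function on the transitive closure -/
noncomputable def cczW (z : M) : M := mrec (fun z h =>
  ins (opair z (cczH A g N (sUn (img z (fun u => app h u))) z)) (sUn (img z (fun u => app h u)))) z

instance cczW_i {n : ℕ} {t : (Fin n → M) → M} [ht : DfT t] : DfT (fun v => cczW A g N (t v)) :=
  DfT.comp1 (f := fun z => cczW A g N z) (by unfold cczW; infer_instance) ht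

/-- the function on the members of `z` -/
noncomputable def cczU (z : M) : M := sUn (img z (fun u => cczW A g N u))

instance cczU_i {n : ℕ} {t : (Fin n → M) → M} [ht : DfT t] : DfT (fun v => cczU A g N (t v)) :=
  DfT.comp1 (f := fun z => cczU A g N z) (by unfold cczU; infer_instance) ht

/-- the value -/
noncomputable def cczV (z : M) : M := cczH A g N (cczU A g N z) z

instance cczV_i {n : ℕ} {t : (Fin n → M) → M} [ht : DfT t] : DfT (fun v => cczV A g N (t v)) :=
  DfT.comp1 (f := fun z => cczV A g N z) (by unfold cczV; infer_instance) ht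

theorem cczW_eq (z : M) : cczW A g N z = ins (opair z (cczV A g N z)) (cczU A g N z) := by
  have h : cczW A g N z = ins (opair z (cczH A g N (sUn (img z (fun u =>
      app (gr z (fun u => cczW A g N u)) u))) z)) (sUn (img z (fun u =>
      app (gr z (fun u => cczW A g N u)) u))) := by
    unfold cczW
    exact mrec_eq inferInstance z
  have h2 : img z (fun u => app (gr z (fun u => cczW A g N u)) u) =
      img z (fun u => cczW A g N u) := by
    refine ext fun y => ?_
    rw [mem_img' inferInstance, mem_img' inferInstance]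
    refine exists_congr fun x => and_congr_right fun hx => ?_
    rw [app_gr inferInstance hx]
  rw [h, h2]
  rfl

theorem cczW_self (z : M) : E (opair z (cczV A g N z)) (cczW A g N z) := by
  rw [cczW_eq, mem_ins]; exact Or.inr rfl

theorem cczW_sub {y z : M} (h : E y z) : Sub (cczW A g N y) (cczU A g N z) := by
  intro t ht
  unfold cczU
  rw [mem_sUn]
  exact ⟨_, (mem_img' inferInstance).2 ⟨y, h, rfl⟩, ht⟩

theorem cczU_sub (z : M) : Sub (cczU A g N z) (cczW A g N z) := by
  intro t ht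
  rw [cczW_eq, mem_ins]; exact Or.inl ht

theorem cczW_mem (z : M) : ∀ t, E t (cczW A g N z) → ∃ y, t = opair y (cczV A g N y) := by
  refine mem_induction (C := fun z : M => ∀ t : M, E t (cczW A g N z) →
    ∃ y : M, t = opair y (cczV A g N y)) inferInstance ?_ z
  intro z ih t ht
  rw [cczW_eq, mem_ins] at ht
  rcases ht with ht | ht
  · unfold cczU at ht
    rw [mem_sUn] at ht
    obtain ⟨s, hs, ht⟩ := ht
    obtain ⟨y, hy, rfl⟩ := (mem_img' inferInstance).1 hs
    exact ih y hy t ht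
  · exact ⟨z, ht⟩

theorem cczU_app {y z : M} (h : E (opair y (cczV A g N y)) (cczU A g N z)) :
    app (cczU A g N z) y = cczV A g N y := by
  refine the_eq h fun w hw => ?_
  obtain ⟨y', h'⟩ := cczW_mem A g N z _ (cczU_sub A g N z _ hw)
  rw [opair_inj] at h'
  rw [h'.2, h'.1]

theorem ccz_op1 (a b : M) : E (sing a) (opair a b) := by
  unfold opair; rw [mem_upair]; exact Or.inl rfl

/-- the recursion equation at pairs `(c, n)`, `c` a set of pairs -/
theorem cczV_eq {c n : M} (hc : ∀ t, E t c → ∃ y s, t = opair y s) :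
    cczV A g N (opair c n) = app (app N (cczPhi A g
      (img c (fun t => opair (cczV A g N (ccz_fst t)) (ccz_snd t))))) n := by
  have h1 : cczR c (cczU A g N (opair c n)) =
      img c (fun t => opair (cczV A g N (ccz_fst t)) (ccz_snd t)) := by
    unfold cczR
    refine ext fun z => ?_
    rw [mem_img' inferInstance, mem_img' inferInstance]
    refine exists_congr fun t => and_congr_right fun ht => ?_
    obtain ⟨y, s, rfl⟩ := hc t ht
    rw [ccz_fst_op, cczU_app]
    have k1 := cczW_self A g N y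
    have k2 := cczU_sub A g N _ _ (cczW_sub A g N (mem_sing.2 rfl : E y (sing y)) _ k1)
    have k3 := cczU_sub A g N _ _ (cczW_sub A g N (ccz_op1 y s) _ k2)
    have k4 := cczU_sub A g N _ _ (cczW_sub A g N ht _ k3)
    have k5 := cczU_sub A g N _ _ (cczW_sub A g N (mem_sing.2 rfl : E c (sing c)) _ k4)
    exact cczW_sub A g N (ccz_op1 c n) _ k5
  unfold cczV
  unfold cczH
  refine the_eq ⟨c, n, rfl, ?_⟩ ?_
  · rw [h1]; rfl
  · rintro K ⟨c', n', h, rfl⟩
    rw [opair_inj] at h
    rw [← h.1, ← h.2, h1]; rfl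

theorem cczV_emp : cczV A g N emp = emp := by
  have hne : ∀ c n : M, (emp : M) ≠ opair c n := fun c n h =>
    not_mem_emp (sing c) (by rw [h]; exact ccz_op1 c n)
  unfold cczV
  unfold cczH
  by_contra hcon
  have : ¬ ∃! K, ∃ c n : M, (emp : M) = opair c n ∧
      K = app (app N (cczPhi A g (cczR c (cczU A g N emp)))) n := by
    rintro ⟨K, ⟨c, n, h, _⟩, _⟩
    exact hne c n h
  apply hcon
  unfold the
  rw [dif_neg this]

end

theorem ct_ccz (hacf : ACFStmt) (hcba : CBAStmt) (hzf : ZFXStmt) : CCZStmt := by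
  intro M _ _ w Z I A hB hI hA
  have zf := hzf M w Z hB
  have cb := hcba M
  obtain ⟨g, hg⟩ := hacf M A
  -- numberings of the columns
  obtain ⟨N, hN⟩ := ncn_chs hacf A (fun p f : M => ∀ K : M, Col p K →
      ∃ n : M, E n om ∧ K = app f n) inferInstance (fun p hp => by
    have hpq := hA.1 p hp
    unfold PQ at hpq
    rw [mem_sep] at hpq
    obtain ⟨_, a, ⟨_, hc, _⟩, _⟩ := hpq
    obtain ⟨f, hf1, hf2⟩ := hc
    have hdf : Fn1 (fun n : M => the (fun K : M => ∃ b x : M, Et p K b x ∧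
        E (opair (opair K (opair b x)) n) f)) := inferInstance
    refine ⟨gr om (fun n : M => the (fun K : M => ∃ b x : M, Et p K b x ∧
        E (opair (opair K (opair b x)) n) f)), fun K hK => ?_⟩
    obtain ⟨b, x, h⟩ := hK
    obtain ⟨n, hn, hn'⟩ := hf1 _ h
    refine ⟨n, hn, ?_⟩
    rw [app_gr hdf hn]
    symm
    refine the_eq ⟨b, x, h, hn'⟩ ?_
    rintro K' ⟨b', x', h', h''⟩
    have := hf2 _ _ n h' h hn h'' hn'
    rw [opair_inj] at this
    exact this.1)
  have hVdf : Fn1 (fun z : M => cczV A g N z) := inferInstance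
  have hS : ∀ K, E K (img Z (fun z : M => cczV A g N z)) ↔ ∃ z, E z Z ∧ K = cczV A g N z :=
    fun K => mem_img' hVdf
  -- codes
  obtain ⟨Y, hY⟩ := ncn_chs hacf (img Z (fun z : M => cczV A g N z))
    (fun K z : M => E z Z ∧ K = cczV A g N z) inferInstance (fun K hK => (hS K).1 hK)
  have hPhidf : Fn1 (fun c : M => cczPhi A g
      (img c (fun t : M => opair (cczV A g N (ccz_fst t)) (ccz_snd t)))) := inferInstance
  refine ⟨gr Z (fun c : M => cczPhi A g
      (img c (fun t : M => opair (cczV A g N (ccz_fst t)) (ccz_snd t)))), fun p hp => ?_⟩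
  have hpq := hA.1 p hp
  have hpq0 := hpq
  unfold PQ at hpq
  rw [mem_sep] at hpq
  obtain ⟨_, a, ⟨s1, s2, s3, s4, s5, s6, s7⟩, _, _⟩ := hpq
  -- the part with columns in `S`
  obtain ⟨r, hr⟩ : ∃ r : M, ∀ t, E t r ↔ E t p ∧
      E (ccz_fst t) (img Z (fun z : M => cczV A g N z)) :=
    ⟨sep p (fun t : M => E (ccz_fst t) (img Z (fun z : M => cczV A g N z))),
      fun t => mem_sep' inferInstance⟩
  have hrp : Sub r p := fun t ht => ((hr t).1 ht).1
  have hrE : ∀ K b x, Et r K b x ↔ Et p K b x ∧ E K (img Z (fun z : M => cczV A g N z)) := by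
    intro K b x
    unfold Et
    rw [hr, ccz_fst_op]
  have hcdf : Fn1 (fun t : M => opair (app Y (ccz_fst t)) (ccz_snd t)) := inferInstance
  have hc : ∀ t, E t (img r (fun t : M => opair (app Y (ccz_fst t)) (ccz_snd t))) ↔
      ∃ s, E s r ∧ t = opair (app Y (ccz_fst s)) (ccz_snd s) := fun t => mem_img' hcdf
  obtain ⟨c, hcdef⟩ : ∃ c : M, c = img r (fun t : M => opair (app Y (ccz_fst t)) (ccz_snd t)) :=
    ⟨_, rfl⟩
  rw [← hcdef] at hc
  have hcZ : E c Z := by
    refine hB.sc c (fun t ht => ?_) ?_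
    · obtain ⟨s, hs, rfl⟩ := (hc t).1 ht
      obtain ⟨hsp, hsS⟩ := (hr s).1 hs
      obtain ⟨K, b, x, _, hb, hx, rfl⟩ := s3 s hsp
      rw [ccz_snd_op]
      have hbw : E b w := by
        rcases s1 with s1 | s1
        · exact hB.w1.1.1 a s1 b hb
        · rw [s1] at hb
          exact absurd hb (not_mem_emp b)
      exact zf.opZ (hY _ hsS).1 (zf.opZ (zf.wZ b hbw) hx)
    · rw [hcdef]
      exact cb.img _ hcdf (cb.sub s2 hrp)
  have hcp : ∀ t, E t c → ∃ y s, t = opair y s := fun t ht => by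
    obtain ⟨s, hs, rfl⟩ := (hc t).1 ht
    exact ⟨_, _, rfl⟩
  have hrc : img c (fun t : M => opair (cczV A g N (ccz_fst t)) (ccz_snd t)) = r := by
    refine ext fun z => ?_
    rw [mem_img' inferInstance]
    constructor
    · rintro ⟨t, ht, rfl⟩
      obtain ⟨s, hs, rfl⟩ := (hc t).1 ht
      obtain ⟨hsp, hsS⟩ := (hr s).1 hs
      rw [ccz_fst_op, ccz_snd_op, ← (hY _ hsS).2]
      obtain ⟨K, b, x, _, hb, hx, rfl⟩ := s3 s hsp
      rw [ccz_fst_op, ccz_snd_op]
      exact hs
    · intro hz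
      obtain ⟨hsp, hsS⟩ := (hr z).1 hz
      refine ⟨opair (app Y (ccz_fst z)) (ccz_snd z), (hc _).2 ⟨z, hz, rfl⟩, ?_⟩
      rw [ccz_fst_op, ccz_snd_op, ← (hY _ hsS).2]
      obtain ⟨K, b, x, _, hb, hx, rfl⟩ := s3 z hsp
      rw [ccz_fst_op, ccz_snd_op]
  have hempS : E (emp : M) (img Z (fun z : M => cczV A g N z)) :=
    (hS emp).2 ⟨emp, zf.eZ, (cczV_emp A g N).symm⟩
  -- the chosen member
  have hset : ∀ q, E q (sep A (fun p : M => CczAgr p r)) ↔ E q A ∧ CczAgr q r :=
    fun q => mem_sep' inferInstance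
  have hpr : CczAgr p r := by
    intro K b x h
    rw [hrE]
    constructor
    · intro h1
      refine ⟨h1, ?_⟩
      rcases h with rfl | ⟨_, b', x', h2⟩
      · exact hempS
      · exact ((hrE _ _ _).1 h2).2
    · exact fun h1 => h1.1
  have hPhi : E (cczPhi A g r) A ∧ CczAgr (cczPhi A g r) r :=
    (hset _).1 (hg _ (fun z hz => ((hset z).1 hz).1) ⟨p, (hset p).2 ⟨hp, hpr⟩⟩)
  have hcols : ∀ K, Col (cczPhi A g r) K → E K (img Z (fun z : M => cczV A g N z)) := by
    intro K hK
    obtain ⟨n, hn, rfl⟩ := hN _ hPhi.1 K hK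
    refine (hS _).2 ⟨opair c n, zf.opZ hcZ (zf.omZ n hn), ?_⟩
    rw [cczV_eq A g N hcp, hrc]
  have hagr : CczAgr p (cczPhi A g r) := by
    intro K b x h
    rcases h with rfl | ⟨h1, h2⟩
    · rw [hPhi.2 emp b x (Or.inl rfl), hpr emp b x (Or.inl rfl)]
    · have hKS := hcols K h2
      have hcr : Col r K := by
        obtain ⟨b', x', h3⟩ := h1
        exact ⟨b', x', (hrE _ _ _).2 ⟨h3, hKS⟩⟩
      rw [hPhi.2 K b x (Or.inr ⟨h2, hcr⟩), hpr K b x (Or.inr ⟨h1, hcr⟩)]
  have heq : p = cczPhi A g r := by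
    by_contra hne
    refine hA.2 p _ hp hPhi.1 hne ⟨bun p (cczPhi A g r), ?_, fun z hz => mem_bun.2 (Or.inl hz),
      fun z hz => mem_bun.2 (Or.inr hz)⟩
    exact ccz_union cb hI hpq0 (hA.1 _ hPhi.1) hagr
  refine ⟨c, hcZ, ?_⟩
  rw [app_gr hPhidf hcZ, hrc]
  exact heq

end SW
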