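import Pool.Agent.H93.CT.Stmts
import Pool.Agent.H13.MA.TStmts

/-!
Module CHX: the continuum hypothesis in the extension.
-/

set_option linter.unusedVariables false
set_option synthInstance.maxSize 100000

namespace SW

theorem chx_incl {M : Type} [SetStr M] {x y : M} : Incl x y ↔ Sub x y := Iff.rfl

/-- `om` is the set of natural numbers in the sense of `IsOmega` -/
theorem chx_om {M : Type} [SetStr M] [ZF M] : IsOmega (om : M) := by
  have hsuc : ∀ s y : M, (∀ t, E t s ↔ E t y ∨ t = y) → s = suc y := fun s y h =>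
    ext fun t => by rw [h, mem_suc]
  refine ⟨⟨⟨emp, not_mem_emp, emp_mem_om⟩, fun y hy => ⟨suc y, fun t => mem_suc,
    suc_mem_om hy⟩⟩, fun z hz n hn => ?_⟩
  refine mem_om.1 hn z ⟨?_, fun y hy => ?_⟩
  · obtain ⟨e, he, hez⟩ := hz.1
    rw [← eq_emp he]; exact hez
  · obtain ⟨s, hs, hsz⟩ := hz.2 y hy
    rw [← hsuc s y hs]; exact hsz

/-- the first uncountable ordinal in the sense of `IsOmegaOne` -/
theorem chx_w (hctr : CTRStmt) {M : Type} [SetStr M] [ZF M] {w : M} (h : IsW w) :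
    IsOmegaOne w := by
  refine ⟨⟨h.1.1, h.1.2⟩, fun hc => h.2.1 ((hctr M w).1 hc), fun a ha => (hctr M a).2 (h.2.2 a ha)⟩

theorem ct_chx (hnew : NEWStmt) (hext : EXTStmt) (hscp : SCPStmt) (hctr : CTRStmt)
    (hcf : CFXStmt) (hcba : CBAStmt) (hwpx : WPXStmt) : CHXStmt := by
  intro M _ _ _ w Z I G hB hI hG _
  have ef := embF hG
  have tf := traF hG
  have cf := hcf M w Z I hB
  have hR : Cl2 (fun p z : M => ∃ b t g : M, Et p emp b (opair t g) ∧ z = opair b g) :=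
    inferInstance
  have hpq : ∀ p, G p → ∃ a, Cnd w Z I a p := fun p hp => cf.mem.1 (hG.sub p hp)
  have hrow : ∀ {p b t g : M}, G p → Et p emp b (opair t g) → E b w ∧ Sub g om := by
    intro p b t g hp h
    obtain ⟨a, ha⟩ := hpq p hp
    obtain ⟨h1, _⟩ := cf.row ha h
    obtain ⟨t', g', h2, _, h3⟩ := ha.1.2.2.2.2.2.2 b _ h
    rw [opair_inj] at h2
    rw [h2.2]
    exact ⟨hB.w1.1.1 a (cf.ht ha).1 b h1, h3⟩
  have hGG : ∀ x y, E (opair x y) (mk (PG w Z I) G (GG w Z I)) ↔ ∃ p b t g, G p ∧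
      Et p emp b (opair t g) ∧ x = emb (PG w Z I) G b ∧ y = emb (PG w Z I) G g := by
    intro x y
    unfold GG
    rw [mem_mk_Nmx hG hR]
    constructor
    · rintro ⟨p, z, hp, hz, ⟨b, t, g, h, rfl⟩, e⟩
      rw [tf.opair, opair_inj] at e
      exact ⟨p, b, t, g, hp, h, e.1, e.2⟩
    · rintro ⟨p, b, t, g, hp, h, rfl, rfl⟩
      obtain ⟨h1, h2⟩ := hrow hp h
      exact ⟨p, opair b g, hp, mem_prod.2 ⟨h1, mem_pow.2 h2⟩, ⟨b, t, g, h, rfl⟩,
        (tf.opair b g).symm⟩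
  have hcl := hscp M w Z I hB hI
  have hWX := hwpx M (PG w Z I) G w hcl hG hB.w1
  obtain ⟨f, hf⟩ : ∃ f : Ext (PG w Z I) G, ∀ x b : Ext (PG w Z I) G, E (opair x b) f ↔
      (Sub x om ∧ E b (emb (PG w Z I) G w)) ∧ E (opair b x) (mk (PG w Z I) G (GG w Z I)) := by
    refine ⟨sep (prod (pow om) (emb (PG w Z I) G w))
      (fun z : Ext (PG w Z I) G => ∃ x b : Ext (PG w Z I) G, z = opair x b ∧
        E (opair b x) (mk (PG w Z I) G (GG w Z I))), fun x b => ?_⟩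
    rw [mem_sep' inferInstance, mem_prod, mem_pow]
    refine and_congr_right fun _ => ?_
    constructor
    · rintro ⟨x', b', h, h'⟩
      rw [opair_inj] at h
      rw [h.1, h.2]; exact h'
    · intro h
      exact ⟨x, b, rfl, h⟩
  refine ⟨emb (PG w Z I) G w, om, f, chx_w hctr hWX.1, chx_om, fun x hx => ?_,
    fun x x' a hx hx' h h' => ?_⟩
  · -- the subset `x` of `om` is in `M`
    have hxo : Sub x (emb (PG w Z I) G om) := by rw [tf.om]; exact hx
    obtain ⟨x0, hx0, _, rfl⟩ := hnew M (PG w Z I) G hcl hG om x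
      ((hcba _).sub (hcba _).om hx) hxo
    obtain ⟨q, hq, _, b, t, hbt⟩ := (genF hG).meetB
      (fun q : M => ∃ b t : M, Et q emp b (opair t x0)) inferInstance _ hG.one
      (fun p hp _ => by
        obtain ⟨a, ha⟩ := cf.mem.1 hp
        obtain ⟨q, t, h1, h2, h3⟩ := hext M w Z I a p x0 hB hI ha hx0
        exact ⟨q, cf.mem.2 ⟨_, h1⟩, h2, a, t, h3⟩)
    refine ⟨emb (PG w Z I) G b, (ef.mem _ _).2 (hrow hq hbt).1, ?_⟩
    rw [pairIn_iff]
    exact (hf _ _).2 ⟨⟨hx, (ef.mem _ _).2 (hrow hq hbt).1⟩, (hGG _ _).2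
      ⟨q, b, t, x0, hq, hbt, rfl, rfl⟩⟩
  · rw [pairIn_iff] at h h'
    obtain ⟨_, h1⟩ := (hf _ _).1 h
    obtain ⟨_, h1'⟩ := (hf _ _).1 h'
    obtain ⟨p, b, t, g, hp, k1, rfl, rfl⟩ := (hGG _ _).1 h1
    obtain ⟨p', b', t', g', hp', k1', e, rfl⟩ := (hGG _ _).1 h1'
    rw [ef.inj] at e
    subst e
    obtain ⟨r, hr, hrp, hrp'⟩ := hG.dir p p' hp hp'
    obtain ⟨d, hd⟩ := hpq r hr
    have := hd.1.2.2.2.1 emp b _ _ (hrp _ k1) (hrp' _ k1')
    rw [opair_inj] at this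
    rw [this.2]

end SW
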