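import Pool.Agent.H93.CT.Stmts

/-!
Module DCX: dependent choice.
-/

set_option linter.unusedVariables false
set_option synthInstance.maxSize 100000

namespace SW

theorem ct_dcx (hacf : ACFStmt) : DCXStmt := by
  intro M _ _ X x0 R hR hx0 h
  obtain ⟨g, hg⟩ := hacf M X
  have hm : ∀ x y, E y (sep X (fun y : M => R x y)) ↔ E y X ∧ R x y :=
    fun x y => mem_sep' inferInstance
  have hH : Fn1 (fun x : M => app g (sep X (fun y : M => R x y))) := inferInstance
  have hstep : ∀ x, E x X → E (app g (sep X (fun y : M => R x y))) X ∧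
      R x (app g (sep X (fun y : M => R x y))) := by
    intro x hx
    obtain ⟨y, hy, hy'⟩ := h x hx
    exact (hm x _).1 (hg _ (fun z hz => ((hm x z).1 hz).1) ⟨y, (hm x y).2 ⟨hy, hy'⟩⟩)
  have hX : ∀ n, E n om →
      E (orec x0 (fun x : M => app g (sep X (fun y : M => R x y))) n) X := by
    refine om_ind (C := fun n : M =>
      E (orec x0 (fun x : M => app g (sep X (fun y : M => R x y))) n) X) inferInstance ?_ ?_
    · rw [orec_zero hH]; exact hx0
    · intro n hn ih
      rw [orec_suc hH hn]
      exact (hstep _ ih).1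
  refine ⟨gr om (fun n : M => orec x0 (fun x : M => app g (sep X (fun y : M => R x y))) n),
    ?_, fun n hn => ?_⟩
  · rw [app_gr inferInstance emp_mem_om, orec_zero hH]
  · rw [app_gr inferInstance hn, app_gr inferInstance (suc_mem_om hn), orec_suc hH hn]
    exact ⟨hX n hn, (hstep _ (hX n hn)).2⟩

end SW
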