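import Pool.Agent.H93.CT.Stmts

/-!
Module NEW: closed forcing does not add countable subsets of sets of `M`.
-/

set_option linter.unusedVariables false
set_option synthInstance.maxSize 100000

namespace SW

section

/-- the forced statement: `v 1` numbers the members of `v 0`, which are members of `v 2`, by
members of `v 3` -/
def new_Q (N : Type) [SetStr N] (v : Fin 4 → N) : Prop :=
  (∀ y, E y (v 0) → E y (v 2) ∧ ∃ n, E n (v 3) ∧ PairIn y n (v 1)) ∧
  ∀ y y' n, E y (v 0) → E y' (v 0) → E n (v 3) → PairIn y n (v 1) → PairIn y' n (v 1) → y = y'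

theorem new_Q_u : UDf (fun M _ (v : Fin 4 → M) =>
    (∀ y, E y (v 0) → E y (v 2) ∧ ∃ n, E n (v 3) ∧ PairIn y n (v 1)) ∧
    ∀ y y' n, E y (v 0) → E y' (v 0) → E n (v 3) → PairIn y n (v 1) → PairIn y' n (v 1) →
      y = y') := by infer_instance

instance new_Q_df : UDf new_Q := new_Q_u

/-- `x` is in `a` and has number `n` -/
def new_A (N : Type) [SetStr N] (v : Fin 4 → N) : Prop :=
  E (v 0) (v 2) ∧ PairIn (v 0) (v 1) (v 3)

theorem new_A_u : UDf (fun M _ (v : Fin 4 → M) =>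
    E (v 0) (v 2) ∧ PairIn (v 0) (v 1) (v 3)) := by infer_instance

instance new_A_df : UDf new_A := new_A_u

/-- no member of `a` has number `n` -/
def new_B (N : Type) [SetStr N] (v : Fin 3 → N) : Prop :=
  ∀ x, E x (v 1) → ¬ PairIn x (v 0) (v 2)

theorem new_B_u : UDf (fun M _ (v : Fin 3 → M) =>
    ∀ x, E x (v 1) → ¬ PairIn x (v 0) (v 2)) := by infer_instance

instance new_B_df : UDf new_B := new_B_u

end

section
variable {M : Type} [SetStr M] [ZF M]

theorem new_mono {F : FPoset M} {n : ℕ} {Q : ∀ (N : Type) [SetStr N], (Fin n → N) → Prop}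
    {p q : M} {v : Fin n → M} (h : FS F Q p v) (hp : E p F.P) (hle : F.le q p) : FS F Q q v :=
  fun G hG hq => h G hG (hG.up q p hq hp hle)

theorem new_fix5 {R : M → M → M → M → M → Prop}
    (h : Df (fun w : Fin 5 → M => R (w 0) (w 1) (w 2) (w 3) (w 4))) (a b : M) :
    Cl3 (fun x y z : M => R x y z a b) := by
  have h1 : Df (fun v : Fin 5 → M => R (v 2) (v 3) (v 4) (v 1) (v 0)) :=
    (h.ren ![2, 3, 4, 1, 0]).congr fun v => Iff.rfl
  have h2 := h1.subst1 (t := fun _ : Fin 4 → M => b) inferInstance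
  have h3 : Df (fun v : Fin 4 → M => R (v 1) (v 2) (v 3) (v 0) b) := h2.congr fun v => Iff.rfl
  have h4 := h3.subst1 (t := fun _ : Fin 3 → M => a) inferInstance
  exact h4.congr fun v => Iff.rfl

end

section
variable {M : Type} [SetStr M] [ZF M] [Countable M]

theorem new_A_df2 (F : FPoset M) (a f : M) :
    Cl3 (fun q x n : M => FS F new_A q ![chk F x, chk F n, a, f]) := by
  have h1 := (semF F).df new_A
  have h3 : Df (fun w : Fin 5 → M => FS F new_A (w 0) ![w 1, w 2, w 3, w 4]) :=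
    h1.congr fun w => by
      have : (![w 1, w 2, w 3, w 4] : Fin 4 → M) = fun i => w i.succ := by
        funext i; fin_cases i <;> rfl
      rw [this]
  have h4 := new_fix5 (R := fun q x y u v => FS F new_A q ![x, y, u, v]) h3 a f
  exact h4.comp3 (R := fun q x y => FS F new_A q ![x, y, a, f])
    (inferInstance : DfT (fun w : Fin 3 → M => w 0))
    (inferInstance : DfT (fun w : Fin 3 → M => chk F (w 1)))
    (inferInstance : DfT (fun w : Fin 3 → M => chk F (w 2)))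

theorem new_B_df2 (F : FPoset M) (a f : M) :
    Cl2 (fun q n : M => FS F new_B q ![chk F n, a, f]) := by
  have h1 := (semF F).df new_B
  have h3 : Df (fun w : Fin 4 → M => FS F new_B (w 0) ![w 1, w 2, w 3]) :=
    h1.congr fun w => by
      have : (![w 1, w 2, w 3] : Fin 3 → M) = fun i => w i.succ := by
        funext i; fin_cases i <;> rfl
      rw [this]
  exact h3.comp4 (R := fun q x u v => FS F new_B q ![x, u, v])
    (inferInstance : DfT (fun w : Fin 2 → M => w 0))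
    (inferInstance : DfT (fun w : Fin 2 → M => chk F (w 1)))
    (inferInstance : DfT (fun w : Fin 2 → M => a))
    (inferInstance : DfT (fun w : Fin 2 → M => f))

end

/-- a closed poset: countably many decisions -/
theorem new_dist (hdc : DCXStmt) {M : Type} [SetStr M] [ZFC M] (F : FPoset M) (hcl : SCl F)
    (D : M → M → Prop) (hD : Cl2 D)
    (hmono : ∀ q q' n, D q n → E q F.P → E q' F.P → F.le q' q → D q' n) (p : M) (hp : E p F.P)
    (hd : ∀ q n, E q F.P → F.le q p → E n om → ∃ r, E r F.P ∧ F.le r q ∧ D r n) :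
    ∃ q, E q F.P ∧ F.le q p ∧ ∀ n, E n om → D q n := by
  have hX : ∀ z, E z (sep (prod om F.P) (fun z : M => ∃ n q : M, z = opair n q ∧ F.le q p)) ↔
      E z (prod om F.P) ∧ ∃ n q : M, z = opair n q ∧ F.le q p := fun z => mem_sep' inferInstance
  obtain ⟨f, hf0, hf⟩ := hdc M
    (sep (prod om F.P) (fun z : M => ∃ n q : M, z = opair n q ∧ F.le q p)) (opair emp p)
    (fun z z' : M => ∃ n q q' : M, z = opair n q ∧ z' = opair (suc n) q' ∧ F.le q' q ∧ D q' n)
    inferInstance ((hX _).2 ⟨mem_prod.2 ⟨emp_mem_om, hp⟩, emp, p, rfl, F.refl p hp⟩) (by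
      intro z hz
      obtain ⟨hz1, n, q, rfl, hqp⟩ := (hX z).1 hz
      obtain ⟨hn, hq⟩ := mem_prod.1 hz1
      obtain ⟨r, hr, hrq, hrn⟩ := hd q n hq hqp hn
      refine ⟨opair (suc n) r, (hX _).2 ⟨mem_prod.2 ⟨suc_mem_om hn, hr⟩, suc n, r, rfl,
        F.trans r q p hr hq hp hrq hqp⟩, n, q, r, rfl, rfl, hrq, hrn⟩)
  -- the sequence of conditions
  have hfn : ∀ n, E n om → ∃ q, app f n = opair n q := by
    refine om_ind (C := fun n : M => ∃ q : M, app f n = opair n q) inferInstance ⟨p, hf0⟩ ?_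
    intro n hn ih
    obtain ⟨q, hq⟩ := ih
    obtain ⟨_, m, r, r', h1, h2, _⟩ := hf n hn
    rw [hq, opair_inj] at h1
    rw [← h1.1] at h2
    exact ⟨r', h2⟩
  have hg : ∀ n q : M, E n om → app f n = opair n q →
      the (fun q : M => app f n = opair n q) = q := fun n q hn h =>
    the_eq h fun z hz => by
      rw [h, opair_inj] at hz
      exact hz.2.symm
  have happ : ∀ n q : M, E n om → app f n = opair n q →
      app (gr om (fun n : M => the (fun q : M => app f n = opair n q))) n = q := by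
    intro n q hn h
    rw [app_gr inferInstance hn]
    exact hg n q hn h
  have hseq : ∀ n, E n om → ∃ q q', app f n = opair n q ∧ app f (suc n) = opair (suc n) q' ∧
      E q F.P ∧ F.le q p ∧ E q' F.P ∧ F.le q' q ∧ D q' n := by
    intro n hn
    obtain ⟨h0, m, q, q', h1, h2, h3, h4⟩ := hf n hn
    obtain ⟨q0, hq0⟩ := hfn n hn
    have h1' := h1
    rw [hq0, opair_inj] at h1'
    obtain ⟨rfl, rfl⟩ := h1'
    obtain ⟨hz1, n', r, hr, hrp⟩ := (hX _).1 h0
    rw [h1, mem_prod] at hz1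
    rw [h1, opair_inj] at hr
    obtain ⟨h5, _⟩ := hf (suc n) (suc_mem_om hn)
    obtain ⟨hz2, _⟩ := (hX _).1 h5
    rw [h2, mem_prod] at hz2
    exact ⟨q0, q', hq0, h2, hz1.2, by rw [hr.2]; exact hrp, hz2.2, h3, h4⟩
  obtain ⟨q, hq, hqn⟩ := hcl (gr om (fun n : M => the (fun q : M => app f n = opair n q)))
    (fun n hn => by
      obtain ⟨r, r', h1, h2, h3, h4, h5, h6, h7⟩ := hseq n hn
      rw [happ n r hn h1, happ (suc n) r' (suc_mem_om hn) h2]
      exact ⟨h3, h6⟩)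
  refine ⟨q, hq, ?_, fun n hn => ?_⟩
  · have := hqn emp emp_mem_om
    rwa [happ emp p emp_mem_om hf0] at this
  · obtain ⟨r, r', h1, h2, h3, h4, h5, h6, h7⟩ := hseq n hn
    have h8 := hqn (suc n) (suc_mem_om hn)
    rw [happ (suc n) r' (suc_mem_om hn) h2] at h8
    exact hmono r' q n h7 h5 hq h8

theorem ct_new (hdc : DCXStmt) : NEWStmt := by
  intro M _ _ _ F G hcl hG _ X a ha haX
  have ff := semF F
  have ef := embF hG
  have tf := traF hG
  obtain ⟨f, hf1, hf2⟩ := ha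
  obtain ⟨a', rfl⟩ : ∃ a', mk F G a' = a := ⟨_, Quot.out_eq _⟩
  obtain ⟨f', rfl⟩ : ∃ f', mk F G f' = f := ⟨_, Quot.out_eq _⟩
  -- the forced statement
  have hQ : new_Q (Ext F G) (fun i => mk F G ((![a', f', chk F X, chk F om] : Fin 4 → M) i)) := by
    refine ⟨fun y hy => ⟨haX y hy, ?_⟩, fun y y' n hy hy' hn h1 h2 => ?_⟩
    · obtain ⟨n, hn, hn'⟩ := hf1 y hy
      rw [← tf.om] at hn
      exact ⟨n, hn, pairIn_iff.2 hn'⟩
    · have hn' : E n (emb F G om) := hn
      rw [tf.om] at hn'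
      exact hf2 y y' n hy hy' hn' (pairIn_iff.1 h1) (pairIn_iff.1 h2)
  obtain ⟨p, hp, hpF⟩ := (ff.truth new_Q G hG _).1 hQ
  have hpP : E p F.P := hG.sub p hp
  have hA := new_A_df2 F a' f'
  have hB := new_B_df2 F a' f'
  obtain ⟨A, hAd⟩ : ∃ A : M → M → M → Prop,
    A = fun q x n : M => FS F new_A q ![chk F x, chk F n, a', f'] := ⟨_, rfl⟩
  obtain ⟨B, hBd⟩ : ∃ B : M → M → Prop,
    B = fun q n : M => FS F new_B q ![chk F n, a', f'] := ⟨_, rfl⟩
  rw [← hAd] at hA
  rw [← hBd] at hB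
  have hAiff : ∀ q x n, A q x n ↔ FS F new_A q ![chk F x, chk F n, a', f'] := fun q x n => by
    rw [hAd]
  have hBiff : ∀ q n, B q n ↔ FS F new_B q ![chk F n, a', f'] := fun q n => by rw [hBd]
  have hD : Cl2 (fun q n : M => B q n ∨ ∃ x : M, E x X ∧ A q x n) := inferInstance
  have hmono : ∀ q q' n, (B q n ∨ ∃ x : M, E x X ∧ A q x n) → E q F.P → E q' F.P → F.le q' q →
      (B q' n ∨ ∃ x : M, E x X ∧ A q' x n) := by
    intro q q' n h hq hq' hle
    rcases h with h | ⟨x, hx, h⟩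
    · exact Or.inl ((hBiff _ _).2 (new_mono ((hBiff _ _).1 h) hq hle))
    · exact Or.inr ⟨x, hx, (hAiff _ _ _).2 (new_mono ((hAiff _ _ _).1 h) hq hle)⟩
  have hdense : ∀ q n, E q F.P → F.le q p → E n om →
      ∃ r, E r F.P ∧ F.le r q ∧ (B r n ∨ ∃ x : M, E x X ∧ A r x n) := by
    intro q n hq hqp hn
    obtain ⟨G', hG', hqG'⟩ := ff.ex q hq
    have ef' := embF hG'
    have hpG' : G' p := hG'.up q p hqG' hpP hqp
    have hQ' := hpF G' hG' hpG'
    by_cases hex : ∃ x, E x (mk F G' a') ∧ PairIn x (emb F G' n) (mk F G' f')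
    · obtain ⟨x, hx, hxn⟩ := hex
      obtain ⟨hxX, _⟩ := hQ'.1 x hx
      obtain ⟨x0, hx0, rfl⟩ := ef'.trans _ _ (hxX : E x (emb F G' X))
      obtain ⟨s, hs, hsF⟩ := (ff.truth new_A G' hG' ![chk F x0, chk F n, a', f']).1 ⟨hx, hxn⟩
      obtain ⟨t, ht, htq, hts⟩ := hG'.dir q s hqG' hs
      exact ⟨t, hG'.sub t ht, htq, Or.inr ⟨x0, hx0, (hAiff _ _ _).2
        (new_mono hsF (hG'.sub s hs) hts)⟩⟩
    · obtain ⟨s, hs, hsF⟩ := (ff.truth new_B G' hG' ![chk F n, a', f']).1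
        (fun x hx hxn => hex ⟨x, hx, hxn⟩)
      obtain ⟨t, ht, htq, hts⟩ := hG'.dir q s hqG' hs
      exact ⟨t, hG'.sub t ht, htq, Or.inl ((hBiff _ _).2 (new_mono hsF (hG'.sub s hs) hts))⟩
  obtain ⟨q, hq, hqp, hqD⟩ := (genF hG).meetB (fun q : M => ∀ n : M, E n om →
      (B q n ∨ ∃ x : M, E x X ∧ A q x n)) inferInstance p hp (fun p' hp' hp'p =>
    new_dist hdc F hcl _ hD hmono p' hp' (fun q n hq hqp' hn =>
      hdense q n hq (F.trans q p' p hq hp' hpP hqp' hp'p) hn))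
  -- truth in `G`
  have tA : ∀ x n, A q x n → E (emb F G x) (mk F G a') ∧
      PairIn (emb F G x) (emb F G n) (mk F G f') := fun x n h =>
    (hAiff q x n).1 h G hG hq
  have tB : ∀ n, B q n → ∀ x, E x (mk F G a') → ¬ PairIn x (emb F G n) (mk F G f') :=
    fun n h => (hBiff q n).1 h G hG hq
  have hb : ∀ x, E x (sep X (fun x : M => ∃ n : M, E n om ∧ A q x n)) ↔
      E x X ∧ ∃ n : M, E n om ∧ A q x n := fun x => mem_sep' inferInstance
  have hgr : ∀ z, E z (sep (prod X om) (fun z : M => ∃ x n : M, z = opair x n ∧ A q x n)) ↔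
      E z (prod X om) ∧ ∃ x n : M, z = opair x n ∧ A q x n := fun z => mem_sep' inferInstance
  have hgr' : ∀ x n, E x X → E n om → (E (opair x n)
      (sep (prod X om) (fun z : M => ∃ x n : M, z = opair x n ∧ A q x n)) ↔ A q x n) := by
    intro x n hx hn
    rw [hgr]
    constructor
    · rintro ⟨_, x', n', h, h'⟩
      rw [opair_inj] at h
      rw [h.1, h.2]; exact h'
    · intro h
      exact ⟨mem_prod.2 ⟨hx, hn⟩, x, n, rfl, h⟩
  refine ⟨sep X (fun x : M => ∃ n : M, E n om ∧ A q x n), fun x hx => ((hb x).1 hx).1,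
    ⟨sep (prod X om) (fun z : M => ∃ x n : M, z = opair x n ∧ A q x n), fun x hx => ?_,
      fun x x' n hx hx' hn h1 h2 => ?_⟩, ext fun y => ⟨fun hy => ?_, fun hy => ?_⟩⟩
  · obtain ⟨hx, n, hn, h⟩ := (hb x).1 hx
    exact ⟨n, hn, (hgr' x n hx hn).2 h⟩
  · have hxX := ((hb x).1 hx).1
    have hxX' := ((hb x').1 hx').1
    have h3 := tA x n ((hgr' x n hxX hn).1 h1)
    have h4 := tA x' n ((hgr' x' n hxX' hn).1 h2)
    have hn' : E (emb F G n) (om : Ext F G) := by
      rw [← tf.om, ef.mem]; exact hn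
    have h5 := hf2 _ _ _ h3.1 h4.1 hn' (pairIn_iff.1 h3.2) (pairIn_iff.1 h4.2)
    exact (ef.inj _ _).1 h5
  · obtain ⟨x, hx, rfl⟩ := ef.trans _ _ (haX y hy)
    obtain ⟨n, hn, hn'⟩ := hf1 _ hy
    have hn2 : E n (emb F G om) := by rw [tf.om]; exact hn
    obtain ⟨n0, hn0, rfl⟩ := ef.trans _ _ hn2
    rcases hqD n0 hn0 with h | ⟨x0, hx0, h⟩
    · exact absurd (pairIn_iff.2 hn') (tB n0 h _ hy)
    · have h3 := tA x0 n0 h
      have h5 := hf2 _ _ _ hy h3.1 hn hn' (pairIn_iff.1 h3.2)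
      rw [ef.inj] at h5
      rw [ef.mem, hb, h5]
      exact ⟨hx0, n0, hn0, h⟩
  · obtain ⟨x, hx, rfl⟩ := ef.trans _ _ hy
    obtain ⟨_, n, hn, h⟩ := (hb x).1 hx
    exact (tA x n h).1

end SW
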