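import Pool.Agent.H93.CT.Stmts
import Pool.Agent.H31.MA.WX

/-!
Module WPX: the first uncountable ordinal is preserved by closed forcing.
-/

set_option linter.unusedVariables false
set_option synthInstance.maxSize 100000

namespace SW

theorem ct_wpx (hnew : NEWStmt) : WPXStmt := by
  intro M _ _ _ F G w hcl hG hw _
  have tf := traF hG
  have ef := embF hG
  have h3 : ∀ x : M, Cb (emb F G x) → Cb x := by
    intro x hx
    obtain ⟨b, hb, hcb, h⟩ := hnew M F G hcl hG x (emb F G x) hx (Sub.refl _)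
    rw [ef.inj] at h
    rw [h]; exact hcb
  refine ⟨⟨tf.ord w hw.1, fun h => hw.2.1 (h3 w h), fun a ha => ?_⟩,
    fun x => ⟨h3 x, fun hx => wx_cb hG hx⟩⟩
  obtain ⟨b, hb, rfl⟩ := ef.trans _ _ ha
  exact wx_cb hG (hw.2.2 b hb)

end SW
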